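import Pool.Agent.N145.PL.Stm

/-!
LG/DEG: degrees of the residue fields over a normal ring (helper712).
-/

set_option autoImplicit false
set_option linter.overlappingInstances false

namespace Pool.Agent.N712.LG

open Polynomial

/-- an element which is not zero in the residue field divides an element of the ground ring -/
theorem step {A B κ K' : Type} [CommRing A] [CommRing B] [Field κ] [Field K'] [Algebra κ K']
    (j : A →+* B) (ρ : A →+* κ) (π : B →+* K') (hc : ∀ a, π (j a) = algebraMap κ K' (ρ a))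
    (b : B) (hb : π b ≠ 0) : ∀ (n : ℕ) (p : A[X]), p.natDegree ≤ n → p.map ρ ≠ 0 →
    aeval (π b) (p.map ρ) = 0 → ∃ (c : B) (a : A), ρ a ≠ 0 ∧ π b * π c = algebraMap κ K' (ρ a) := by
  intro n
  induction n with
  | zero =>
    intro p hn hp h
    exfalso
    rw [Nat.le_zero] at hn
    rw [eq_C_of_natDegree_eq_zero hn] at hp h
    rw [map_C, aeval_C, map_eq_zero] at h
    apply hp
    rw [map_C, h, C_0]
  | succ n ih =>
    intro p hn hp h
    have e := divX_mul_X_add p
    have e2 : p.map ρ = (divX p).map ρ * X + C (ρ (p.coeff 0)) := by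
      conv_lhs => rw [← e]
      rw [Polynomial.map_add, Polynomial.map_mul, map_X, map_C]
    by_cases h0 : ρ (p.coeff 0) = 0
    · rw [h0, C_0, add_zero] at e2
      refine ih (divX p) ?_ ?_ ?_
      · rw [natDegree_divX_eq_natDegree_tsub_one]; omega
      · intro h1
        apply hp
        rw [e2, h1, zero_mul]
      · rw [e2, map_mul, aeval_X] at h
        exact (mul_eq_zero.1 h).resolve_right hb
    · refine ⟨-(eval₂ j b (divX p)), p.coeff 0, h0, ?_⟩
      have e3 : π (eval₂ j b (divX p)) = aeval (π b) ((divX p).map ρ) := by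
        rw [hom_eval₂, aeval_def, eval₂_map]
        congr 1
        ext a
        exact hc a
      rw [map_neg, e3]
      rw [e2, map_add, map_mul, aeval_X, aeval_C] at h
      linear_combination -h

/-- coefficients of minimal polynomials over a normal ring -/
theorem deg {L K : Type} [Field L] [Field K] [Algebra ℂ L] [Algebra L K] [FiniteDimensional L K]
    (A : Subalgebra ℂ L) (hA : ∀ z : L, IsIntegral A z → z ∈ A) (z : K) (hz : IsIntegral A z) :
    ∃ p : A[X], p.Monic ∧ p.natDegree ≤ Module.finrank L K ∧ aeval z p = 0 := by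
  have hzL : IsIntegral L z := IsIntegral.of_finite L z
  have hd : minpoly L z ∣ (minpoly A z).map (algebraMap A L) := by
    refine minpoly.dvd L z ?_
    rw [aeval_map_algebraMap]
    exact minpoly.aeval A z
  have h1 := integralClosure.mem_lifts_of_monic_of_dvd_map L (minpoly.monic hz) (minpoly.monic hzL) hd
  rw [lifts_iff_coeff_lifts] at h1
  have h2 : minpoly L z ∈ lifts (algebraMap A L) := by
    rw [lifts_iff_coeff_lifts]
    intro n
    obtain ⟨c, hc⟩ := h1 n
    exact ⟨⟨c.1, hA _ c.2⟩, hc⟩
  obtain ⟨p, hp1, hp2, hp3⟩ := lifts_and_natDegree_eq_and_monic h2 (minpoly.monic hzL)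
  refine ⟨p, hp3, ?_, ?_⟩
  · rw [hp2]
    exact minpoly.natDegree_le z
  · rw [← aeval_map_algebraMap L, hp1]
    exact minpoly.aeval L z

open Pool.Agent.N145.PL in
theorem DEG : S_DEG := by
  intro L K _ _ _ _ _ _ _ A hA B hAB hB κ K' _ _ _ _ _ _ _ ρ π hc hq
  -- the inclusion
  let j : A →+* B := ((algebraMap L K).comp A.val.toRingHom).codRestrict B fun a => hAB a.1 a.2
  have hj : ∀ a : A, ((j a : B) : K) = algebraMap L K a := fun a => rfl
  have hcj : ∀ a : A, π.toRingHom (j a) = algebraMap κ K' (ρ.toRingHom a) := fun a =>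
    hc a.1 a.2 (hAB a.1 a.2)
  -- every element of `B` satisfies a monic equation of degree at most `d` over `A`
  have hmon : ∀ b : B, ∃ p : A[X], p.Monic ∧ p.natDegree ≤ Module.finrank L K ∧
      aeval (π b) (p.map ρ.toRingHom) = 0 := by
    intro b
    obtain ⟨p, hp1, hp2, hp3⟩ := deg A hA (b : K) (hB b.1 b.2)
    refine ⟨p, hp1, hp2, ?_⟩
    have h1 : eval₂ j b p = 0 := by
      apply Subtype.ext
      have h2 : ((eval₂ j b p : B) : K) = eval₂ (B.val.toRingHom.comp j) (b : K) p :=
        hom_eval₂ p j B.val.toRingHom b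
      rw [h2]
      have h3 : B.val.toRingHom.comp j = algebraMap A K := RingHom.ext fun a => rfl
      rw [h3]
      exact hp3
    have h4 : π.toRingHom (eval₂ j b p) = aeval (π b) (p.map ρ.toRingHom) := by
      rw [hom_eval₂, aeval_def, eval₂_map]
      congr 1
      exact RingHom.ext hcj
    rw [← h4, h1, map_zero]
  -- a primitive element
  have : CharZero κ := charZero_of_injective_algebraMap (algebraMap ℂ κ).injective
  obtain ⟨α, hα⟩ := Field.exists_primitive_element κ K'
  rw [Field.primitive_element_iff_minpoly_natDegree_eq] at hα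
  rw [← hα]
  obtain ⟨a, b, hb, hab⟩ := hq α
  obtain ⟨p, hp1, -, hp3⟩ := hmon b
  obtain ⟨c, a', ha', hbc⟩ := step j ρ.toRingHom π.toRingHom hcj b hb p.natDegree p le_rfl
    (hp1.map _).ne_zero hp3
  obtain ⟨q, hq1, hq2, hq3⟩ := hmon (a * c)
  set r : κ := (ρ a')⁻¹ with hr
  have hα2 : α = algebraMap κ K' r * π (a * c) := by
    have h1 : π b * π c = algebraMap κ K' (ρ a') := hbc
    have h2 : ρ a' ≠ 0 := ha'
    have h3 : algebraMap κ K' (ρ a') ≠ 0 := by rwa [Ne, map_eq_zero]
    have h4 : π c ≠ 0 := by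
      intro h5
      rw [h5, mul_zero] at h1
      exact h3 h1.symm
    rw [hab, hr, map_inv₀, ← h1, map_mul]
    field_simp
  have hroot : aeval α (scaleRoots (q.map ρ.toRingHom) r) = 0 := by
    rw [hα2]
    exact scaleRoots_aeval_eq_zero hq3
  have hmonic : (scaleRoots (q.map ρ.toRingHom) r).Monic := (monic_scaleRoots_iff r).2 (hq1.map _)
  refine (natDegree_le_of_dvd (minpoly.dvd κ α hroot) hmonic.ne_zero).trans ?_
  rw [natDegree_scaleRoots, hq1.natDegree_map]
  exact hq2

end Pool.Agent.N712.LG
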